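import Pool.Agent.X183.SLN.NonLin

/-!
# `C^k`-actions of `SL(n, ℝ)` on `(ℝ^m, 0)` need not be `C^k`-linearizable

Question (Cairns–Ghys type problem, MP_4f3c81_gt Q1): for all `3 ≤ n ≤ m < 2n - 2` and all
`k ∈ {1, 2, ..., ∞}`, is every `C^k`-action of `SL(n, ℝ)` on `(ℝ^m, 0)` `C^k`-linearizable?

Answer: **no**. For all `n ≥ 2`, all `m ≥ n + 2` and every finite `k ≥ 1` there is a `C^k`-action
of `SL(n, ℝ)` on `(ℝ^m, 0)` which is not `C^k`-linearizable; e.g. `n = 5`, `m = 7` lies in the
range of the question.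

The action is `g · (x, y₁, y₂, rest) = (g x, y₁, y₂ + u(x, y₁) - u(g x, y₁), rest)` with
`u(x, y) = y^k M(log(|x|² + y²))`, `M(s) = log (1 + s²)`.
-/

open Filter Topology Set

namespace Pool.Agent.Results.MP_4f3c81_gt.NotLinearizable

open Pool.Agent.X183.SLN

/-- The statement asked about in Q1. -/
def AllLinearizable : Prop :=
  ∀ n m : ℕ, 3 ≤ n → n ≤ m → m < 2 * n - 2 → ∀ k : ℕ∞, 1 ≤ k → ∀ A : CkAction n m k,
    A.Linearizable

/-- the first `n` coordinates -/
noncomputable def XL (n m : ℕ) (h : n + 2 ≤ m) : Rm m →L[ℝ] (Fin n → ℝ) :=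
  LinearMap.toContinuousLinearMap
    { toFun := fun z i => z (Fin.castLE (by omega) i)
      map_add' := fun _ _ => rfl
      map_smul' := fun _ _ => rfl }

theorem XL_apply (n m : ℕ) (h : n + 2 ≤ m) (z : Rm m) (i : Fin n) :
    XL n m h z i = z (Fin.castLE (by omega) i) := rfl

/-- the inclusion of the first `n` coordinates -/
noncomputable def incL (n m : ℕ) : (Fin n → ℝ) →L[ℝ] Rm m :=
  LinearMap.toContinuousLinearMap
    { toFun := fun x => WithLp.toLp 2 fun j : Fin m => if hj : j.1 < n then x ⟨j.1, hj⟩ else 0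
      map_add' := fun x y => by
        ext j
        by_cases hj : j.1 < n <;> simp [hj]
      map_smul' := fun r x => by
        ext j
        by_cases hj : j.1 < n <;> simp [hj] }

theorem incL_apply (n m : ℕ) (x : Fin n → ℝ) (j : Fin m) :
    incL n m x j = if hj : j.1 < n then x ⟨j.1, hj⟩ else 0 := rfl

/-- the coordinate number `n + 1` -/
noncomputable def YL (n m : ℕ) (h : n + 2 ≤ m) : Rm m →L[ℝ] ℝ :=
  LinearMap.toContinuousLinearMap
    { toFun := fun z => z ⟨n, by omega⟩
      map_add' := fun _ _ => rfl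
      map_smul' := fun _ _ => rfl }

theorem YL_apply (n m : ℕ) (h : n + 2 ≤ m) (z : Rm m) : YL n m h z = z ⟨n, by omega⟩ := rfl

/-- coordinates on `ℝ^m`, `m ≥ n + 2`. -/
noncomputable def coord (n m : ℕ) (h : n + 2 ≤ m) : Coord n (Rm m) where
  X := XL n m h
  inc := incL n m
  Y := YL n m h
  e₁ := EuclideanSpace.single ⟨n, by omega⟩ 1
  e₂ := EuclideanSpace.single ⟨n + 1, by omega⟩ 1
  X_inc := fun x => by
    ext i
    rw [XL_apply, incL_apply]
    simp
  Y_inc := fun x => by
    rw [YL_apply, incL_apply]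
    simp
  X_e₁ := by
    ext i
    have : (Fin.castLE (by omega) i : Fin m) ≠ ⟨n, by omega⟩ := by
      intro h
      have := congrArg Fin.val h
      simp at this
      have := i.2
      omega
    rw [XL_apply]
    simp [this]
  X_e₂ := by
    ext i
    have : (Fin.castLE (by omega) i : Fin m) ≠ ⟨n + 1, by omega⟩ := by
      intro h
      have := congrArg Fin.val h
      simp at this
      have := i.2
      omega
    rw [XL_apply]
    simp [this]
  Y_e₁ := by rw [YL_apply]; simp
  Y_e₂ := by rw [YL_apply]; simp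
  e₂_ne := by
    intro h
    have h1 := congrArg (fun z : Rm m => z ⟨n + 1, by omega⟩) h
    simp at h1

/-- the action, as a `CkAction`. -/
noncomputable def theAction (n m : ℕ) (h : n + 2 ≤ m) (k : ℕ) (hk : 1 ≤ k) :
    CkAction n m (k : ℕ∞) where
  act := (coord n m h).act k
  one_act := (coord n m h).act_one k
  mul_act := (coord n m h).act_mul k
  continuous_act := (coord n m h).act_continuous k hk
  contDiff_act := fun g => by exact_mod_cast (coord n m h).act_contDiff k hk g
  act_zero := (coord n m h).act_zero k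

theorem theAction_not (n m : ℕ) (h : n + 2 ≤ m) (k : ℕ) (hk : 1 ≤ k) (hn : 2 ≤ n) :
    ¬ (theAction n m h k hk).Linearizable := by
  obtain ⟨k, rfl⟩ := Nat.exists_eq_add_of_le' hk
  rintro ⟨φ, V, N, hV, h0V, hVs, hN, -, hφ, hφs, hφ0, heq⟩
  refine (coord n m h).not_linearizable hn k φ V N hV h0V hVs hN (by exact_mod_cast hφ)
    (by exact_mod_cast hφs) hφ0 (fun g hg x hx => ?_)
  have h1 := heq g hg x hx
  have h2 : (theAction n m h (k + 1) hk).rho g = (coord n m h).lin g :=
    ((coord n m h).hasFDerivAt_act (k + 1) hk g).fderiv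
  rw [h2] at h1
  exact h1

/-- **Main theorem.** For all `n ≥ 2`, `m ≥ n + 2` and every finite `k ≥ 1` there is a `C^k`-action
of `SL(n, ℝ)` on `(ℝ^m, 0)` that is not `C^k`-linearizable. In particular the statement of Q1 is
false. -/
theorem result :
    (∀ n m k : ℕ, 2 ≤ n → n + 2 ≤ m → 1 ≤ k → ∃ A : CkAction n m (k : ℕ∞), ¬ A.Linearizable) ∧
    ¬ AllLinearizable := by
  have h : ∀ n m k : ℕ, 2 ≤ n → n + 2 ≤ m → 1 ≤ k →
      ∃ A : CkAction n m (k : ℕ∞), ¬ A.Linearizable := fun n m k hn hm hk =>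
    ⟨theAction n m hm k hk, theAction_not n m hm k hk hn⟩
  refine ⟨h, fun H => ?_⟩
  obtain ⟨A, hA⟩ := h 5 7 2 (by norm_num) (by norm_num) (by norm_num)
  exact hA (H 5 7 (by norm_num) (by norm_num) (by norm_num) _ (by norm_num) A)

end Pool.Agent.Results.MP_4f3c81_gt.NotLinearizable
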